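import Pool.Agent.Lib.MP_aa3aaf_al_L.Glue

/-!
For every torsion-free `G₂`-structure on a smooth 7-manifold `M` the supersymmetric vertex algebras
`V₊` and `V₋` generated by the sections `Φ₊` and `Φ₋` of the chiral de Rham complex consist of
global sections and are simple.
-/

set_option autoImplicit false
open scoped ContDiff Manifold
namespace Pool.Agent.Results.MP_aa3aaf_al.SimpleVPlusVMinus
open Pool.Agent.CDR

theorem result (M : Type) [TopologicalSpace M] [ChartedSpace R7 M]
    [IsManifold 𝓘(ℝ, R7) ∞ M] [Nonempty M] (S : G2Structure M) (hS : S.TorsionFree) :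
    ((VPlus S : Set (Fam M)) ⊆ GlobalSec M ∧ (VMinus S : Set (Fam M)) ⊆ GlobalSec M) ∧
    (famAlg M).IsSimple (VPlus S) ∧ (famAlg M).IsSimple (VMinus S) :=
  Pool.Agent.CDR.main S hS

end Pool.Agent.Results.MP_aa3aaf_al.SimpleVPlusVMinus
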